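import Pool.Agent.Lib.AM.SpecB

set_option autoImplicit false
set_option linter.all false

/-!
# AM, module B/Ar2: one request arrives in the cell, averaged
-/

namespace Pool.Agent.AM

open Finset Pool.Agent.MP_a4c1f4_lc

private theorem Ar2B_sum (N : ℕ) (w U : ℕ → ℝ) (q κ : ℝ) (h : ∑ j ∈ range N, w j = 1) :
    ∑ j ∈ range N, w j * (q * (U j + κ)) = q * (∑ j ∈ range N, w j * U j + κ) := by
  have e : ∀ j ∈ range N, w j * (q * (U j + κ)) = q * (w j * U j) + q * κ * w j := fun j _ => by ring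
  rw [Finset.sum_congr rfl e, Finset.sum_add_distrib, ← Finset.mul_sum, ← Finset.mul_sum, h]
  ring

theorem ar2P : MonoProp → TwProp → TexCProp → ArB → ArB2 := by
  intro hM hTw hTex hAr T _ _ _ c δ cell mu Lam v N x l hLam hN hmu hv hF hl
  obtain ⟨hθ0, -, -, -, -, -, tw0, -, -, tw1⟩ := hTw Lam N hLam hN
  obtain ⟨p1, -, ex0, -, -, -⟩ := hTex Lam N v hLam hN hv
  have hA0 : 0 ≤ ∑ j ∈ range N,
      tw Lam N j * (exj Lam N v j * ind (¬ cell j x ∧ cell j (srv (c j) x l))) :=
    Finset.sum_nonneg fun j _ => mul_nonneg (tw0 j) (mul_nonneg (ex0 j) (ind_nonneg _))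
  have hU : ∀ j, j < N → 0 ≤ prT (c j) x l := fun j hj => by
    unfold prT
    have := (hM T (c j) l).1 (hF.nn j hj.le) x hl
    linarith
  have hκ : 0 ≤ mu * Lam / N * (1 + Fintype.card T) := by
    have : mu * Lam / N = mu * (Lam / N) := by ring
    rw [this]
    positivity
  have hq : 0 ≤ 0.06 / mu * Real.exp (-v) := by positivity
  have key : (∑ a ∈ range N, tw Lam N a * ind (Lam * (a : ℝ) / (N : ℝ) ≤ 1)) *
      (∑ j ∈ range N, tw Lam N j * (exj Lam N v j * ind (¬ cell j x ∧ cell j (srv (c j) x l)))) ≤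
      ∑ a ∈ range N, tw Lam N a * (0.06 / mu * Real.exp (-v) *
        (prT (c a) x l + mu * Lam / N * (1 + Fintype.card T))) := by
    rw [Finset.sum_mul]
    refine Finset.sum_le_sum fun a ha => ?_
    have ha' := Finset.mem_range.1 ha
    by_cases h : Lam * (a : ℝ) / (N : ℝ) ≤ 1
    · rw [ind_true h, mul_one]
      exact mul_le_mul_of_nonneg_left
        (hAr T c δ cell mu Lam v N a x l hLam hN hmu hv hF hl ha' h) (tw0 a)
    · rw [ind_false h, mul_zero, zero_mul]
      exact mul_nonneg (tw0 a) (mul_nonneg hq (add_nonneg (hU a ha') hκ))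
  rw [Ar2B_sum N (fun j => tw Lam N j) (fun j => prT (c j) x l) _ _ tw1] at key
  have hS : 0 ≤ ∑ j ∈ range N, tw Lam N j * prT (c j) x l :=
    Finset.sum_nonneg fun j hj => mul_nonneg (tw0 j) (hU j (Finset.mem_range.1 hj))
  have h1 := mul_le_mul_of_nonneg_right p1 hA0
  have h2 := h1.trans key
  have h3 : 0 ≤ 1 / mu * Real.exp (-v) *
      (∑ j ∈ range N, tw Lam N j * prT (c j) x l + mu * Lam / N * (1 + Fintype.card T)) :=
    mul_nonneg (by positivity) (add_nonneg hS hκ)
  have e1 : 0.06 / mu * Real.exp (-v) *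
      (∑ j ∈ range N, tw Lam N j * prT (c j) x l + mu * Lam / N * (1 + Fintype.card T)) =
      0.06 * (1 / mu * Real.exp (-v) *
      (∑ j ∈ range N, tw Lam N j * prT (c j) x l + mu * Lam / N * (1 + Fintype.card T))) := by
    ring
  have e2 : 0.1 / mu * Real.exp (-v) *
      (∑ j ∈ range N, tw Lam N j * prT (c j) x l + mu * Lam / N * (1 + Fintype.card T)) =
      0.1 * (1 / mu * Real.exp (-v) *
      (∑ j ∈ range N, tw Lam N j * prT (c j) x l + mu * Lam / N * (1 + Fintype.card T))) := by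
    ring
  rw [e1] at h2
  rw [e2]
  linarith

end Pool.Agent.AM
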