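import Pool.Agent.Lib.AM.SpecB

set_option autoImplicit false
set_option linter.all false

/-!
# AM, B/Cro: one request crosses
-/

namespace Pool.Agent.AM

open Finset Pool.Agent.MP_a4c1f4_lc

private theorem CroB_ind0 (p : Prop) : 0 ≤ ind p := by
  unfold ind
  split_ifs <;> norm_num

private theorem CroB_ind1 (p : Prop) : ind p ≤ 1 := by
  unfold ind
  split_ifs <;> norm_num

private theorem CroB_indT {p : Prop} (h : p) : ind p = 1 := by
  unfold ind
  exact if_pos h

private theorem CroB_indF {p : Prop} (h : ¬ p) : ind p = 0 := by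
  unfold ind
  exact if_neg h

private theorem CroB_up {T : Type} {cell : ℕ → T → Prop} (hup : ∀ j s, cell j s → cell (j + 1) s)
    {a : ℕ} {x : T} (h : cell a x) : ∀ j, a ≤ j → cell j x := by
  intro j hj
  induction j, hj using Nat.le_induction with
  | base => exact h
  | succ n _ ih => exact hup n x ih

theorem croP : MonoProp → StepProp → TwProp → TabProp → CroB := by
  intro hMono hStep hTw hTab T _ _ _ c δ cell mu Lam N x l hLam hN hmu hF hl
  obtain ⟨hθ0, hθ1, hq0, hq1, hqN, hexp, htw0, htw1, htwm, hsum⟩ := hTw Lam N hLam hN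
  have hU0 : ∀ j, j ≤ N → 0 ≤ prT (c j) x l := by
    intro j hj
    have h := (hMono T (c j) l).1 (hF.nn j hj) x hl
    unfold prT
    linarith
  have hE : (0 : ℝ) < Real.exp (-Lam) := Real.exp_pos _
  have hB0 : (0 : ℝ) ≤ (Fintype.card T : ℝ) := Nat.cast_nonneg _
  have heta := hF.eta0
  by_cases hex : ∃ j, j < N ∧ cell j x
  · classical
    obtain ⟨θ, hθN, hθc, hθm⟩ : ∃ θ, θ < N ∧ cell θ x ∧ ∀ j, j < θ → ¬ cell j x := by
      refine ⟨Nat.find hex, (Nat.find_spec hex).1, (Nat.find_spec hex).2, fun j hj hc => ?_⟩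
      exact Nat.find_min hex hj ⟨hj.trans (Nat.find_spec hex).1, hc⟩
    have hcell : ∀ j, θ ≤ j → cell j x := CroB_up hF.up hθc
    have hL : ∑ j ∈ range N, tw Lam N j * ind (cell j x ∧ ¬ cell j (srv (c j) x l)) =
        ∑ j ∈ Ico θ N, tw Lam N j * ind (¬ cell j (srv (c j) x l)) := by
      rw [← Finset.sum_range_add_sum_Ico _ hθN.le]
      have h1 : ∑ j ∈ range θ, tw Lam N j * ind (cell j x ∧ ¬ cell j (srv (c j) x l)) = 0 := by
        refine Finset.sum_eq_zero fun j hj => ?_
        rw [CroB_indF (fun h => hθm j (Finset.mem_range.1 hj) h.1), mul_zero]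
      rw [h1, zero_add]
      refine Finset.sum_congr rfl fun j hj => ?_
      have h2 : cell j x := hcell j (Finset.mem_Ico.1 hj).1
      by_cases h3 : cell j (srv (c j) x l)
      · rw [CroB_indF (fun h => h.2 h3), CroB_indF (fun h => h h3)]
      · rw [CroB_indT ⟨h2, h3⟩, CroB_indT h3]
    have hR : ∑ j ∈ range N, tw Lam N j * (ind (cell j x) * prT (c j) x l) =
        ∑ j ∈ Ico θ N, tw Lam N j * prT (c j) x l := by
      rw [← Finset.sum_range_add_sum_Ico _ hθN.le]
      have h1 : ∑ j ∈ range θ, tw Lam N j * (ind (cell j x) * prT (c j) x l) = 0 := by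
        refine Finset.sum_eq_zero fun j hj => ?_
        rw [CroB_indF (hθm j (Finset.mem_range.1 hj)), zero_mul, mul_zero]
      rw [h1, zero_add]
      refine Finset.sum_congr rfl fun j hj => ?_
      rw [CroB_indT (hcell j (Finset.mem_Ico.1 hj).1), one_mul]
    rw [hL, hR]
    refine hTab Lam mu N θ (Fintype.card T : ℝ) (fun j => prT (c j) x l)
      (fun j => ∑ s ∈ used (c j) l, δ j s) (fun j => ind (¬ cell j (srv (c j) x l)))
      hLam hN hmu hB0 hθN.le ?_ ?_ ?_
    · intro j _ hj
      refine ⟨hU0 j hj, Finset.sum_nonneg fun s _ => hF.d0 j s, ?_⟩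
      calc ∑ s ∈ used (c j) l, δ j s ≤ ∑ s ∈ used (c j) l, mu * Lam / (N : ℝ) :=
            Finset.sum_le_sum fun s _ => hF.d1 j s
        _ = ((used (c j) l).card : ℝ) * (mu * Lam / (N : ℝ)) := by
            rw [Finset.sum_const, nsmul_eq_mul]
        _ ≤ (Fintype.card T : ℝ) * (mu * Lam / (N : ℝ)) := by
            apply mul_le_mul_of_nonneg_right _ heta.le
            exact_mod_cast Finset.card_le_univ _
        _ = mu * Lam / (N : ℝ) * (Fintype.card T : ℝ) := mul_comm _ _
    · intro j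
      exact ⟨CroB_ind0 _, CroB_ind1 _⟩
    · intro j hj hjN
      have hs := hStep T c δ x l j hl (hF.step j) (hF.d2 j)
      have h1 : δ j x = mu * Lam / (N : ℝ) := hF.ce j x (hcell j hj)
      have h2 : mu * Lam / (N : ℝ) * ind (¬ cell (j + 1) (srv (c (j + 1)) x l)) ≤
          mu * Lam / (N : ℝ) - δ j (srv (c (j + 1)) x l) := by
        by_cases h3 : cell (j + 1) (srv (c (j + 1)) x l)
        · rw [CroB_indF (fun h => h h3), mul_zero]
          have := hF.d1 j (srv (c (j + 1)) x l)
          linarith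
        · rw [CroB_indT h3, mul_one, hF.co j _ h3, sub_zero]
      simp only [prT]
      linarith
  · have hL : ∑ j ∈ range N, tw Lam N j * ind (cell j x ∧ ¬ cell j (srv (c j) x l)) = 0 := by
      refine Finset.sum_eq_zero fun j hj => ?_
      rw [CroB_indF (fun h => hex ⟨j, Finset.mem_range.1 hj, h.1⟩), mul_zero]
    rw [hL]
    have h1 : 0 ≤ ∑ j ∈ range N, tw Lam N j * (ind (cell j x) * prT (c j) x l) := by
      refine Finset.sum_nonneg fun j hj => ?_
      exact mul_nonneg (htw0 j) (mul_nonneg (CroB_ind0 _)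
        (hU0 j (Finset.mem_range.1 hj).le))
    have h2 : 0 ≤ 2 * Real.exp (-Lam) * prT (c N) x l :=
      mul_nonneg (by positivity) (hU0 N le_rfl)
    have h3 : 0 ≤ 1 / mu * (∑ j ∈ range N, tw Lam N j * (ind (cell j x) * prT (c j) x l) +
        2 * Real.exp (-Lam) * prT (c N) x l) :=
      mul_nonneg (by positivity) (add_nonneg h1 h2)
    have h4 : 0 ≤ 2 * (Lam / (N : ℝ)) * (1 + (Fintype.card T : ℝ)) :=
      mul_nonneg (mul_nonneg (by norm_num) hθ0.le) (by linarith)
    exact add_nonneg h3 h4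

end Pool.Agent.AM
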