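import Pool.Agent.Lib.AM.SpecB

set_option autoImplicit false
set_option linter.all false

/-!
# AM, B/DL: the weighted one-source decorrelation
-/

namespace Pool.Agent.AM

open Finset Pool.Agent.MP_a4c1f4_lc

private theorem DLB_psum_nonneg {S : Type} (f : S → List S → ℝ) (M : ℕ) (l : List S)
    (hf : ∀ x l', l'.length + 1 ≤ M → 0 ≤ f x l') (hl : l.length ≤ M) : 0 ≤ psum f l := by
  induction l with
  | nil => exact le_refl _
  | cons x l ih =>
    rw [List.length_cons] at hl
    have h1 := ih (by omega)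
    have h2 := hf x l hl
    change 0 ≤ psum f l + f x l
    linarith

private theorem DLB_near_nonneg {T : Type} (c : T → T → ℝ) (near : T → Prop)
    (hc : ∀ r s, 0 ≤ c r s) (l τ : List T) : 0 ≤ nearC c near l τ := by
  unfold nearC
  induction l generalizing τ with
  | nil => simp
  | cons x l ih =>
    cases τ with
    | nil => simp
    | cons y τ =>
      rw [List.zipWith_cons_cons, List.sum_cons]
      have h1 := ih τ
      have h2 : 0 ≤ ind (near x) * (2 * c x y) :=
        mul_nonneg (ind_nonneg _) (mul_nonneg (by norm_num) (hc x y))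
      linarith

private theorem DLB_exchange (N : ℕ) (w F : ℕ → ℝ) :
    ∑ j ∈ range N, w j * ∑ k ∈ range j, F k = ∑ k ∈ range N, F k * ∑ j ∈ Ico (k + 1) N, w j := by
  simp only [mul_sum]
  rw [Finset.sum_comm' (s := range N) (t := fun j => range j) (t' := range N)
    (s' := fun k => Ico (k + 1) N)]
  · refine sum_congr rfl fun k _ => sum_congr rfl fun j _ => ?_
    ring
  · intro j k
    simp only [mem_range, mem_Ico]
    omega

private theorem DLB_one (N : ℕ) (W w A Q F : ℕ → ℝ) (e1 eta K err : ℝ) (a : ℕ)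
    (hw : ∀ j, 0 ≤ w j) (hsum : ∑ j ∈ range N, w j ≤ e1) (he1 : e1 ≤ 1) (heta : 0 ≤ eta)
    (hQ : 0 ≤ Q a) (hF : ∀ k, k < N → 0 ≤ F k) (herr : 0 ≤ err)
    (hsm : ∀ j, w j ≠ 0 → a < j)
    (hDec : ∀ j, a < j → j ≤ N → A j ≤ Q a + eta * ∑ k ∈ Ico a j, F k + err)
    (hex : ∀ k, k < N → eta * ∑ j ∈ Ico (k + 1) N, w j ≤ K * W k) :
    ∑ j ∈ range N, w j * A j ≤ e1 * Q a + K * ∑ j ∈ range N, W j * F j + err := by
  have h1 : ∀ j ∈ range N, w j * A j ≤
      w j * (Q a + err) + eta * (w j * ∑ k ∈ range j, F k) := by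
    intro j hj
    have hjN : j < N := mem_range.1 hj
    by_cases h0 : w j = 0
    · rw [h0]
      simp
    · have haj := hsm j h0
      have h2 := hDec j haj hjN.le
      have h3 : ∑ k ∈ Ico a j, F k ≤ ∑ k ∈ range j, F k := by
        refine sum_le_sum_of_subset_of_nonneg ?_ ?_
        · intro k hk
          exact mem_range.2 (mem_Ico.1 hk).2
        · intro k hk _
          exact hF k (lt_trans (mem_range.1 hk) hjN)
      have h4 : A j ≤ (Q a + err) + eta * ∑ k ∈ range j, F k := by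
        have h5 := mul_le_mul_of_nonneg_left h3 heta
        linarith
      calc w j * A j ≤ w j * ((Q a + err) + eta * ∑ k ∈ range j, F k) :=
            mul_le_mul_of_nonneg_left h4 (hw j)
        _ = w j * (Q a + err) + eta * (w j * ∑ k ∈ range j, F k) := by ring
  have h2 := sum_le_sum h1
  rw [sum_add_distrib, ← sum_mul, ← mul_sum, DLB_exchange] at h2
  have h3 : ∑ k ∈ range N, eta * (F k * ∑ j ∈ Ico (k + 1) N, w j) ≤
      ∑ k ∈ range N, K * (W k * F k) := by
    refine sum_le_sum fun k hk => ?_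
    have hkN := mem_range.1 hk
    have h4 := mul_le_mul_of_nonneg_right (hex k hkN) (hF k hkN)
    linarith
  rw [← mul_sum, ← mul_sum] at h3
  have h4 : (∑ j ∈ range N, w j) * (Q a + err) ≤ e1 * Q a + err := by
    have h5 : (∑ j ∈ range N, w j) * Q a ≤ e1 * Q a := mul_le_mul_of_nonneg_right hsum hQ
    have h6 : (∑ j ∈ range N, w j) * err ≤ 1 * err :=
      mul_le_mul_of_nonneg_right (le_trans hsum he1) herr
    linarith
  linarith

private theorem DLB_core (N : ℕ) (W w A Q F : ℕ → ℝ) (e1 eta K err : ℝ) (small : ℕ → Prop)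
    (hW : ∀ j, 0 ≤ W j) (hw : ∀ j, 0 ≤ w j) (hsum : ∑ j ∈ range N, w j ≤ e1) (he0 : 0 ≤ e1)
    (he1 : e1 ≤ 1) (heta : 0 ≤ eta) (hQ : ∀ a, a < N → 0 ≤ Q a) (hF : ∀ k, k < N → 0 ≤ F k)
    (herr : 0 ≤ err) (hsm : ∀ a j, small a → w j ≠ 0 → a < j)
    (hDec : ∀ a j, a < j → j ≤ N → A j ≤ Q a + eta * ∑ k ∈ Ico a j, F k + err)
    (hex : ∀ k, k < N → eta * ∑ j ∈ Ico (k + 1) N, w j ≤ K * W k)
    (hp : 5 / 8 ≤ ∑ j ∈ range N, W j * ind (small j)) :
    ∑ j ∈ range N, w j * A j ≤
      8 / 5 * e1 * ∑ j ∈ range N, W j * Q j + K * ∑ j ∈ range N, W j * F j + err := by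
  set L : ℝ := ∑ j ∈ range N, w j * A j with hL
  set R : ℝ := K * ∑ j ∈ range N, W j * F j + err with hR
  have h1 : ∀ a ∈ range N, W a * ind (small a) * (L - R) ≤ e1 * (W a * Q a) := by
    intro a ha
    have haN := mem_range.1 ha
    by_cases hs : small a
    · have h2 := DLB_one N W w A Q F e1 eta K err a hw hsum he1 heta (hQ a haN) hF herr
        (fun j => hsm a j hs) (hDec a) hex
      rw [ind_true hs, mul_one]
      have h3 : L - R ≤ e1 * Q a := by linarith
      calc W a * (L - R) ≤ W a * (e1 * Q a) := mul_le_mul_of_nonneg_left h3 (hW a)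
        _ = e1 * (W a * Q a) := by ring
    · rw [ind_false hs, mul_zero, zero_mul]
      exact mul_nonneg he0 (mul_nonneg (hW a) (hQ a haN))
  have h2 := sum_le_sum h1
  rw [← sum_mul, ← mul_sum] at h2
  have hQs : 0 ≤ ∑ j ∈ range N, W j * Q j :=
    sum_nonneg fun a ha => mul_nonneg (hW a) (hQ a (mem_range.1 ha))
  have h3 : L - R ≤ 8 / 5 * e1 * ∑ j ∈ range N, W j * Q j := by
    by_cases hneg : L - R ≤ 0
    · exact le_trans hneg (mul_nonneg (mul_nonneg (by norm_num) he0) hQs)
    · have h4 : 5 / 8 * (L - R) ≤ (∑ j ∈ range N, W j * ind (small j)) * (L - R) :=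
        mul_le_mul_of_nonneg_right hp (le_of_lt (not_le.1 hneg))
      linarith
  linarith

theorem dlP (hMono : MonoProp) (hTw : TwProp) (hTA : TexAProp) (hTB : TexBProp)
    (hTC : TexCProp) (hDec : DecB) : DLB := by
  intro T _ _ _ c δ cell mu Lam v N near l τ h24 hN hmu hv hF hlen hnear hτ
  obtain ⟨t1, t2, t3, t4, t5, t6, t7, t8, t9, t10⟩ := hTw Lam N h24 hN
  obtain ⟨a1, a2⟩ := hTA Lam N v h24 hN hv
  have b1 := hTB Lam N v h24 hN
  obtain ⟨c1, c2, c3, c4, c5, c6⟩ := hTC Lam N v h24 hN hv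
  have hLam : 0 < Lam := by linarith
  have hN0 : (0 : ℝ) < N := lt_of_lt_of_le (by positivity) hN
  have heta : 0 < mu * Lam / N := by positivity
  have hexp : Real.exp (-v) ≤ 1 := Real.exp_le_one_iff.2 (by linarith)
  have hexp0 : 0 < Real.exp (-v) := Real.exp_pos _
  have hpr : ∀ a, a ≤ N → ∀ x l', l'.length + 1 ≤ Fintype.card T → 0 ≤ prT (c a) x l' := by
    intro a ha x l' hl'
    have h1 := (hMono T (c a) l').1 (hF.nn a ha) x hl'
    unfold prT
    linarith
  have hmain := DLB_core N (tw Lam N) (fun j => tw Lam N j * exj Lam N v j)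
    (fun j => psum (fun x l' => ind (cell j x) * prT (c j) x l') l)
    (fun j => 2 * psum (fun x l' => ind (near x) * prT (c j) x l') l + nearC (c j) near l (τ j))
    (fun j => psum (fun x l' => ind (¬ near x ∧ cell j (srv (c j) x l'))) l)
    (0.15 * Real.exp (-v)) (mu * Lam / N) (mu * (Lam + 1))
    (mu * Lam / N * l.length * (3 + 2 * Fintype.card T))
    (fun a => Lam * (a : ℝ) / (N : ℝ) ≤ 1) t7 (fun j => mul_nonneg (t7 j) (c3 j)) a1
    (by positivity) (by nlinarith) heta.le ?_ ?_ (by positivity) ?_ ?_ ?_ c1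
  · have e1 : ∑ j ∈ range N, tw Lam N j *
        (exj Lam N v j * psum (fun x l' => ind (cell j x) * prT (c j) x l') l) =
        ∑ j ∈ range N, tw Lam N j * exj Lam N v j *
          psum (fun x l' => ind (cell j x) * prT (c j) x l') l :=
      sum_congr rfl fun j _ => by ring
    rw [e1]
    have e2 : (8 : ℝ) / 5 * (0.15 * Real.exp (-v)) = 0.24 * Real.exp (-v) := by
      rw [← mul_assoc]
      norm_num
    rw [e2] at hmain
    exact hmain
  · intro a ha
    have h1 : 0 ≤ psum (fun x l' => ind (near x) * prT (c a) x l') l :=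
      DLB_psum_nonneg _ (Fintype.card T) l
        (fun x l' hl' => mul_nonneg (ind_nonneg _) (hpr a ha.le x l' hl')) hlen
    have h2 := DLB_near_nonneg (c a) near (hF.nn a ha.le) l (τ a)
    change 0 ≤ 2 * psum (fun x l' => ind (near x) * prT (c a) x l') l + nearC (c a) near l (τ a)
    linarith
  · intro k hk
    exact DLB_psum_nonneg _ (Fintype.card T) l (fun x l' _ => ind_nonneg _) hlen
  · intro a j ha hj
    by_contra hcon
    have hja : j ≤ a := not_lt.1 hcon
    apply hj
    have h1 : Lam * (j : ℝ) / (N : ℝ) ≤ 2 := by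
      have h2 : Lam * (j : ℝ) / (N : ℝ) ≤ Lam * (a : ℝ) / (N : ℝ) := by
        have h3 : (j : ℝ) ≤ (a : ℝ) := by exact_mod_cast hja
        gcongr
      have h4 : Lam * (a : ℝ) / (N : ℝ) ≤ 1 := ha
      linarith
    change tw Lam N j * exj Lam N v j = 0
    rw [c5 j h1, mul_zero]
  · intro a j haj hjN
    obtain ⟨h1, h2⟩ := hτ a (lt_of_lt_of_le haj hjN)
    exact hDec T c δ cell (mu * Lam / N) N near l (τ a) a j hF hlen haj hjN hnear h1 h2
  · intro k hk
    have h1 := b1 k
    have h2 : exj Lam N v k + 1 ≤ Lam + 1 := by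
      have := c4 k hk.le
      linarith
    have h3 : tw Lam N k * (exj Lam N v k + 1) * ((N : ℝ) / Lam) ≤
        tw Lam N k * (Lam + 1) * ((N : ℝ) / Lam) := by
      have h4 := mul_le_mul_of_nonneg_left h2 (t7 k)
      exact mul_le_mul_of_nonneg_right h4 (by positivity)
    have h5 : mu * Lam / N * ∑ j ∈ Ico (k + 1) N, tw Lam N j * exj Lam N v j ≤
        mu * Lam / N * (tw Lam N k * (Lam + 1) * ((N : ℝ) / Lam)) :=
      mul_le_mul_of_nonneg_left (le_trans h1 h3) heta.le
    have h6 : mu * Lam / N * (tw Lam N k * (Lam + 1) * ((N : ℝ) / Lam)) =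
        mu * (Lam + 1) * tw Lam N k := by
      field_simp
    rw [h6] at h5
    exact h5

end Pool.Agent.AM
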