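import Pool.Agent.Lib.AM.SpecB

set_option autoImplicit false
set_option linter.all false

/-! # AM, part B: the deterministic one-source decorrelation -/

namespace Pool.Agent.AM

open Finset Pool.Agent.MP_a4c1f4_lc

private theorem DecB_mono {S : Type} (f g : S → List S → ℝ) (l : List S)
    (h : ∀ x l', x ∈ l → l'.length + 1 ≤ l.length → f x l' ≤ g x l') : psum f l ≤ psum g l := by
  induction l with
  | nil => exact le_refl _
  | cons x l ih =>
    show psum f l + f x l ≤ psum g l + g x l
    refine add_le_add (ih fun y l' hy hl => h y l' (List.mem_cons_of_mem _ hy) ?_)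
      (h x l List.mem_cons_self (by simp))
    rw [List.length_cons]
    omega

private theorem DecB_lin {S : Type} (f : S → List S → ℝ) (F G : ℕ → S → List S → ℝ)
    (s : Finset ℕ) (e K : ℝ) (l : List S) :
    psum (fun x l' => 2 * f x l' + e * ∑ k ∈ s, F k x l' + e * ∑ k ∈ s, G k x l' + K) l =
      2 * psum f l + e * ∑ k ∈ s, psum (F k) l + e * ∑ k ∈ s, psum (G k) l + l.length * K := by
  induction l with
  | nil => simp [psum]
  | cons x l ih =>
    have h1 : ∀ k, psum (F k) (x :: l) = psum (F k) l + F k x l := fun _ => rfl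
    have h2 : ∀ k, psum (G k) (x :: l) = psum (G k) l + G k x l := fun _ => rfl
    have h3 : psum f (x :: l) = psum f l + f x l := rfl
    show psum _ l + _ = _
    rw [ih]
    simp only [h1, h2, h3, sum_add_distrib, List.length_cons]
    push_cast
    ring

theorem decP : MonoProp → PsB → OneB → NetB → MatB → DecB := by
  intro hMono hPs hOne hNet hMat T _ _ _ c δ cell eta N near l τ a b hF hlen hab hbN hnear hadm hopt
  have heta := hF.eta0
  have hcard : (0 : ℝ) ≤ Fintype.card T := Nat.cast_nonneg _
  -- the termwise inequality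
  have hterm : ∀ x l', x ∈ l → l'.length + 1 ≤ l.length →
      ind (cell b x) * prT (c b) x l' ≤
        2 * (ind (near x) * prT (c a) x l') +
        eta * ∑ k ∈ Ico a b, (ind (cell k x ∧ ¬ cell k (srv (c k) x l')) -
          ind (¬ cell k x ∧ cell k (srv (c k) x l'))) +
        eta * ∑ k ∈ Ico a b, ind (¬ near x ∧ cell k (srv (c k) x l')) +
        2 * eta * (1 + Fintype.card T) := by
    intro x l' hx hl'
    have hl : l'.length + 1 ≤ Fintype.card T := hl'.trans hlen
    obtain ⟨h1, h2⟩ := hOne T c δ cell eta N x l' a b hF hl hab.le hbN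
    have hU : 0 ≤ prT (c a) x l' := by
      have h3 := (hMono T (c a) l').1 (hF.nn a (hab.le.trans hbN)) x hl
      unfold prT
      linarith
    have hFn : 0 ≤ ∑ k ∈ Ico a b, ind (cell k x ∧ ¬ cell k (srv (c k) x l')) :=
      sum_nonneg fun _ _ => ind_nonneg _
    have hGn : 0 ≤ ∑ k ∈ Ico a b, ind (¬ cell k x ∧ cell k (srv (c k) x l')) :=
      sum_nonneg fun _ _ => ind_nonneg _
    have hHn : 0 ≤ ∑ k ∈ Ico a b, ind (¬ near x ∧ cell k (srv (c k) x l')) :=
      sum_nonneg fun _ _ => ind_nonneg _
    have hA : ind (cell b x) * prT (c b) x l' ≤ ind (near x) * prT (c a) x l' +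
        eta * (1 + Fintype.card T) +
        eta * ∑ k ∈ Ico a b, ind (cell k x ∧ ¬ cell k (srv (c k) x l')) := by
      by_cases hc : cell b x
      · rw [ind_true hc, ind_true (hnear b hbN x hx hc), one_mul, one_mul]
        exact h1
      · rw [ind_false hc, zero_mul]
        have h4 : 0 ≤ ind (near x) * prT (c a) x l' := mul_nonneg (ind_nonneg _) hU
        positivity
    have hG : eta * ∑ k ∈ Ico a b, ind (¬ cell k x ∧ cell k (srv (c k) x l')) ≤
        ind (near x) * prT (c a) x l' + eta * (1 + Fintype.card T) +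
        eta * ∑ k ∈ Ico a b, ind (¬ near x ∧ cell k (srv (c k) x l')) := by
      by_cases hc : near x
      · rw [ind_true hc, one_mul]
        have h4 : 0 ≤ eta * ∑ k ∈ Ico a b, ind (¬ near x ∧ cell k (srv (c k) x l')) := by positivity
        linarith
      · have h5 : ∑ k ∈ Ico a b, ind (¬ cell k x ∧ cell k (srv (c k) x l')) ≤
            ∑ k ∈ Ico a b, ind (¬ near x ∧ cell k (srv (c k) x l')) :=
          sum_le_sum fun k _ => ind_mono fun h => ⟨hc, h.2⟩
        have h6 := mul_le_mul_of_nonneg_left h5 heta.le
        have h4 : 0 ≤ ind (near x) * prT (c a) x l' := mul_nonneg (ind_nonneg _) hU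
        have h7 : 0 ≤ eta * (1 + (Fintype.card T : ℝ)) := by positivity
        linarith
    rw [sum_sub_distrib, mul_sub]
    linarith
  have hsum := DecB_mono (fun x l' => ind (cell b x) * prT (c b) x l')
    (fun x l' => 2 * (ind (near x) * prT (c a) x l') +
        eta * ∑ k ∈ Ico a b, (ind (cell k x ∧ ¬ cell k (srv (c k) x l')) -
          ind (¬ cell k x ∧ cell k (srv (c k) x l'))) +
        eta * ∑ k ∈ Ico a b, ind (¬ near x ∧ cell k (srv (c k) x l')) +
        2 * eta * (1 + Fintype.card T)) l hterm
  have hlin := DecB_lin (fun x l' => ind (near x) * prT (c a) x l')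
    (fun k x l' => ind (cell k x ∧ ¬ cell k (srv (c k) x l')) -
          ind (¬ cell k x ∧ cell k (srv (c k) x l')))
    (fun k x l' => ind (¬ near x ∧ cell k (srv (c k) x l'))) (Ico a b) eta
    (2 * eta * (1 + Fintype.card T)) l
  have hnet := hNet T c δ cell eta N l a b hF hlen hab hbN
  have hmat := hMat T c δ cell eta N near l τ a (b - 1) hF (by omega) (by omega)
    (hnear (b - 1) (by omega)) hadm hopt
  rw [hlin] at hsum
  have hfin : (l.length : ℝ) * (2 * eta * (1 + Fintype.card T)) + eta * l.length =
      eta * l.length * (3 + 2 * Fintype.card T) := by ring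
  linarith

end Pool.Agent.AM
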