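import Pool.Agent.Lib.AM.SpecB

set_option autoImplicit false
set_option linter.all false

/-!
# AM, part B: the change of the optimum, estimated with an optimal matching
-/

namespace Pool.Agent.AM

open Finset Pool.Agent.MP_a4c1f4_lc

private theorem MatB_cost {T : Type} {c : ℕ → T → T → ℝ} {δ : ℕ → T → ℝ}
    (h : ∀ j r s, c (j + 1) r s = c j r s + δ j r - δ j s) {a b : ℕ} (hab : a ≤ b) (r s : T) :
    c b r s = c a r s + ∑ i ∈ Ico a b, (δ i r - δ i s) := by
  induction b, hab using Nat.le_induction with
  | base => rw [Finset.Ico_self, Finset.sum_empty, add_zero]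
  | succ b hb ih =>
    rw [h, ih, Finset.sum_Ico_succ_top hb]
    ring

private theorem MatB_up {T : Type} {cell : ℕ → T → Prop}
    (h : ∀ j s, cell j s → cell (j + 1) s) {i b : ℕ} (hib : i ≤ b) {x : T} (hx : cell i x) :
    cell b x := by
  induction b, hib using Nat.le_induction with
  | base => exact hx
  | succ b _ ih => exact h b x ih

private theorem MatB_list {T : Type} {c c' : T → T → ℝ} {near : T → Prop} (l : List T) :
    ∀ τ : List T, (∀ x ∈ l, ∀ v, c' x v ≤ c x v + ind (near x) * (2 * c x v)) →
      acost c' l τ ≤ acost c l τ + nearC c near l τ := by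
  induction l with
  | nil =>
    intro τ _
    simp [acost, nearC]
  | cons x l ih =>
    intro τ h
    cases τ with
    | nil => simp [acost, nearC]
    | cons v τ =>
      have h1 := ih τ fun y hy => h y (List.mem_cons_of_mem x hy)
      have h2 := h x List.mem_cons_self v
      simp only [acost, nearC, List.zipWith_cons_cons, List.sum_cons] at h1 ⊢
      linarith

theorem matP : OptBasicProp → MatB := by
  intro hOB T _ _ _ c δ cell eta N near l τ a b F hab hbN hnear hτ hopt
  have h1 := (hOB T (c b) l).1 τ hτ
  have h2 : acost (c b) l τ ≤ acost (c a) l τ + nearC (c a) near l τ := by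
    refine MatB_list l τ fun x hx v => ?_
    rw [MatB_cost F.step hab x v]
    by_cases hn : near x
    · rw [ind_true hn, one_mul]
      have h3 := F.lip a b hab hbN x v
      linarith
    · rw [ind_false hn, zero_mul]
      have h3 : ∑ i ∈ Ico a b, (δ i x - δ i v) ≤ 0 := by
        refine Finset.sum_nonpos fun i hi => ?_
        have h4 : ¬ cell (i + 1) x := fun h5 =>
          hn (hnear x hx (MatB_up F.up (Finset.mem_Ico.1 hi).2 h5))
        have h6 := F.co i x h4
        have h7 := F.d0 i v
        linarith
      linarith
  linarith

end Pool.Agent.AM
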