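import Pool.Agent.Lib.AM.SpecB

set_option autoImplicit false
set_option linter.all false

/-!
AM, part B, file Net: the difference of the two kinds of crossings of one source.
-/

namespace Pool.Agent.AM

open Finset Pool.Agent.MP_a4c1f4_lc

private theorem NetB_scale (hP : PsB) {S : Type} (f : S → List S → ℝ) (a : ℝ) (l : List S) :
    psum (fun x l' => a * f x l') l = a * psum f l := by
  have h := hP.2.2.2.2.2 S (fun _ _ => 0) f a l
  have h0 : psum (fun (_ : S) (_ : List S) => (0 : ℝ)) l = 0 := by
    rw [hP.2.1 S (fun _ => (0 : ℝ)) l]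
    simp
  rw [h0, zero_add] at h
  rw [← h]
  refine congrArg (fun F => psum F l) ?_
  funext x l'
  ring

private theorem NetB_diff (hP : PsB) {S : Type} (p q : S → List S → Prop) (l : List S) :
    psum (fun x l' => ind (p x l' ∧ ¬ q x l') - ind (¬ p x l' ∧ q x l')) l =
      psum (fun x l' => ind (p x l')) l - psum (fun x l' => ind (q x l')) l := by
  have h := hP.2.2.2.2.2 S (fun x l' => ind (p x l')) (fun x l' => ind (q x l')) (-1) l
  have h1 : (fun x l' => ind (p x l' ∧ ¬ q x l') - ind (¬ p x l' ∧ q x l')) =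
      (fun x l' => ind (p x l') + (-1) * ind (q x l')) := by
    funext x l'
    unfold ind
    by_cases hp : p x l' <;> by_cases hq : q x l' <;> simp [hp, hq]
  rw [h1, h]
  ring

theorem netBP : PsB → NetProp → NetB := by
  intro hP hN T _ _ _ c δ cell eta N l a b hF hlen hab hbN
  set X : ℕ → ℝ := fun k => psum (fun x _ => ind (cell k x)) l with hX
  set Y : ℕ → ℝ := fun k => psum (fun x l' => ind (cell k (srv (c k) x l'))) l with hY
  have hXY : ∀ k, psum (fun x l' => ind (cell k x ∧ ¬ cell k (srv (c k) x l')) -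
      ind (¬ cell k x ∧ cell k (srv (c k) x l'))) l = X k - Y k := fun k =>
    NetB_diff hP (fun x _ => cell k x) (fun x l' => cell k (srv (c k) x l')) l
  have hi0 : ∀ p : Prop, 0 ≤ ind p := by
    intro p; unfold ind; split_ifs <;> norm_num
  have hi1 : ∀ p : Prop, ind p ≤ 1 := by
    intro p; unfold ind; split_ifs <;> norm_num
  have hXle : ∀ k, X k ≤ l.length := by
    intro k
    have h1 := hP.1 T (fun x _ => ind (cell k x)) (fun _ _ => (1 : ℝ)) l (fun x l' => hi1 _)
    rw [hP.2.1 T (fun _ => (1 : ℝ)) l] at h1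
    simpa using h1
  have hY0 : ∀ k, 0 ≤ Y k := by
    intro k
    have h1 := hP.1 T (fun _ _ => (0 : ℝ)) (fun x l' => ind (cell k (srv (c k) x l'))) l
      (fun x l' => hi0 _)
    rw [hP.2.1 T (fun _ => (0 : ℝ)) l] at h1
    simpa using h1
  have hXd : ∀ k, eta * X k ≤ (l.map (δ k)).sum := by
    intro k
    rw [hX, ← NetB_scale hP, ← hP.2.1 T (δ k) l]
    refine hP.1 T _ _ l (fun x l' => ?_)
    by_cases hc : cell k x
    · rw [hF.ce k x hc]
      nlinarith [hi1 (cell k x), hF.eta0]
    · have : ind (cell k x) = 0 := by unfold ind; rw [if_neg hc]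
      rw [this, mul_zero]
      exact hF.d0 k x
  have hYd : ∀ k, ∑ s ∈ used (c (k + 1)) l, δ k s ≤ eta * Y (k + 1) := by
    intro k
    rw [hY, ← NetB_scale hP, hP.2.2.1 T (c (k + 1)) (δ k) l hlen]
    refine hP.1 T _ _ l (fun x l' => ?_)
    by_cases hc : cell (k + 1) (srv (c (k + 1)) x l')
    · have : ind (cell (k + 1) (srv (c (k + 1)) x l')) = 1 := by unfold ind; rw [if_pos hc]
      rw [this, mul_one]
      exact hF.d1 k _
    · rw [hF.co k _ hc]
      exact mul_nonneg hF.eta0.le (hi0 _)
  have hstep : ∀ k, eta * (X k - Y (k + 1)) ≤ optv (c (k + 1)) l - optv (c k) l := by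
    intro k
    have h1 := hN T c δ l k hlen (hF.step k)
    have h2 := hXd k
    have h3 := hYd k
    rw [mul_sub]
    linarith
  have key : ∀ n, a ≤ n → eta * ∑ k ∈ Ico a (n + 1), (X k - Y k) ≤
      optv (c n) l - optv (c a) l + eta * (X n - Y a) := by
    intro n hn
    induction n, hn using Nat.le_induction with
    | base => simp
    | succ n hn ih =>
      rw [Finset.sum_Ico_succ_top (by omega), mul_add]
      have h1 := hstep n
      have h2 : eta * (X (n + 1) - Y a) = eta * (X n - Y a) + eta * (X (n + 1) - Y (n + 1)) -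
          eta * (X n - Y (n + 1)) := by ring
      rw [h2]
      linarith
  obtain ⟨n, rfl⟩ : ∃ n, b = n + 1 := ⟨b - 1, by omega⟩
  have h1 := key n (by omega)
  simp only [hXY]
  have h2 : eta * (X n - Y a) ≤ eta * l.length :=
    mul_le_mul_of_nonneg_left (by linarith [hXle n, hY0 a]) hF.eta0.le
  have h3 : n + 1 - 1 = n := by omega
  rw [h3]
  linarith

end Pool.Agent.AM
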