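import Pool.Agent.Lib.AM.SpecB

set_option autoImplicit false
set_option linter.all false

/-!
# AM, one request (`OneB`)
-/

namespace Pool.Agent.AM

open Finset Pool.Agent.MP_a4c1f4_lc

namespace OneM

theorem monoA (A : ℕ → Prop) (hA : ∀ k, A k → A (k + 1)) {j1 : ℕ} (h : A j1) :
    ∀ n, j1 ≤ n → A n := by
  intro n hn
  induction n, hn using Nat.le_induction with
  | base => exact h
  | succ i _ ii => exact hA i ii

theorem seqA (U M : ℕ → ℝ) (A B : ℕ → Prop) (eta cT : ℝ) (j1 : ℕ) (heta : 0 ≤ eta)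
    (hA : ∀ k, A k → A (k + 1)) :
    ∀ j, j1 ≤ j → (∀ k, j1 ≤ k → k < j → U (k + 1) - U k ≤ eta * ind (A k ∧ ¬ B k) +
      eta * ind (¬ A k ∧ A (k + 1)) - eta * ind (¬ A k ∧ B k) + (M (k + 1) - M k)) →
    U j - M j ≤ U j1 - M j1 + eta * ind (¬ A j1 ∧ A j) +
      eta * ∑ k ∈ Ico j1 j, ind (A k ∧ ¬ B k) := by
  intro j hj
  induction j, hj using Nat.le_induction with
  | base =>
    intro _
    rw [Ico_self, sum_empty, mul_zero, add_zero]
    have := mul_nonneg heta (ind_nonneg (¬ A j1 ∧ A j1))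
    linarith
  | succ n hn ih =>
    intro h
    have h1 := ih fun k h1 h2 => h k h1 (by omega)
    have h2 := h n hn (by omega)
    rw [sum_Ico_succ_top hn, mul_add]
    have h3 := mul_nonneg heta (ind_nonneg (¬ A n ∧ B n))
    have h4 : ind (¬ A j1 ∧ A n) + ind (¬ A n ∧ A (n + 1)) ≤ ind (¬ A j1 ∧ A (n + 1)) := by
      by_cases a1 : A n
      · have a2 := hA n a1
        rw [ind_false (fun h => h.1 a1 : ¬ (¬ A n ∧ A (n + 1))), add_zero]
        exact ind_mono fun h => ⟨h.1, a2⟩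
      · rw [ind_false (fun h => a1 h.2 : ¬ (¬ A j1 ∧ A n)), zero_add]
        exact ind_mono fun h => ⟨fun h5 => a1 (monoA A hA h5 n hn), h.2⟩
    have h5 := mul_le_mul_of_nonneg_left h4 heta
    linarith

theorem seqB (U M : ℕ → ℝ) (A B : ℕ → Prop) (eta cT : ℝ) (j1 : ℕ) (heta : 0 ≤ eta) (N : ℕ)
    (hA : ∀ k, A k → A (k + 1)) (hU : ∀ k, j1 ≤ k → k ≤ N → 0 ≤ U k) (hM : ∀ k, 0 ≤ M k)
    (hM' : ∀ k, M k ≤ eta * cT) (hcT : 0 ≤ cT) :
    ∀ j, j1 ≤ j → j ≤ N → (∀ k, j1 ≤ k → k < j → U (k + 1) - U k ≤ eta * ind (A k ∧ ¬ B k) +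
      eta * ind (¬ A k ∧ A (k + 1)) - eta * ind (¬ A k ∧ B k) + (M (k + 1) - M k)) →
    (¬ A j → eta * ∑ k ∈ Ico j1 j, ind (¬ A k ∧ B k) ≤ U j1 - M j1 - (U j - M j)) ∧
      eta * ∑ k ∈ Ico j1 j, ind (¬ A k ∧ B k) ≤ U j1 + eta * (1 + cT) := by
  intro j hj
  induction j, hj using Nat.le_induction with
  | base =>
    intro hN _
    rw [Ico_self, sum_empty, mul_zero]
    refine ⟨fun _ => by linarith, ?_⟩
    have := hU j1 le_rfl hN
    have := mul_nonneg heta (by linarith : 0 ≤ 1 + cT)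
    linarith
  | succ n hn ih =>
    intro hN h
    obtain ⟨h1, h1'⟩ := ih (by omega) fun k h1 h2 => h k h1 (by omega)
    have h2 := h n hn (by omega)
    rw [sum_Ico_succ_top hn, mul_add]
    have hU1 := hU (n + 1) (by omega) hN
    have hM1 := hM' (n + 1)
    have hM2 := hM j1
    by_cases a1 : A n
    · refine ⟨fun a2 => absurd (hA n a1) a2, ?_⟩
      rw [ind_false (fun h => h.1 a1 : ¬ (¬ A n ∧ B n)), mul_zero, add_zero]
      exact h1'
    · have h3 := h1 a1
      rw [ind_false (fun h => a1 h.1 : ¬ (A n ∧ ¬ B n)), mul_zero, zero_add] at h2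
      refine ⟨fun a2 => ?_, ?_⟩
      · rw [ind_false (fun h => a2 h.2 : ¬ (¬ A n ∧ A (n + 1))), mul_zero, zero_sub] at h2
        linarith
      · have h4 := mul_le_mul_of_nonneg_left (ind_le_one (¬ A n ∧ A (n + 1))) heta
        rw [mul_one] at h4
        rw [mul_add, mul_one]
        linarith

theorem famX_inc {T : Type} [Fintype T] [DecidableEq T] [Nonempty T] (hM : MirProp)
    {c : ℕ → T → T → ℝ} {δ : ℕ → T → ℝ} {cell : ℕ → T → Prop} {eta : ℝ} {N : ℕ}
    (hF : Fam1 c δ cell eta N) (heta : 0 ≤ eta) (x : T) (l : List T)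
    (hl : l.length + 1 ≤ Fintype.card T) (k : ℕ) :
    (optv (c (k + 1)) (x :: l) - optv (c (k + 1)) l) - (optv (c k) (x :: l) - optv (c k) l) ≤
      eta * ind (cell k x ∧ ¬ cell k (srv (c k) x l)) +
      eta * ind (¬ cell k x ∧ cell (k + 1) x) - eta * ind (¬ cell k x ∧ cell k (srv (c k) x l)) +
      (∑ s ∈ used (c (k + 1)) l, δ (k + 1) s - ∑ s ∈ used (c k) l, δ k s) := by
  have h1 := hM T c δ x l k hl (hF.step k) (hF.d2 k)
  have h2 : δ k x - δ k (srv (c k) x l) ≤
      eta * ind (cell k x ∧ ¬ cell k (srv (c k) x l)) +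
      eta * ind (¬ cell k x ∧ cell (k + 1) x) - eta * ind (¬ cell k x ∧ cell k (srv (c k) x l)) := by
    by_cases a : cell k x
    · rw [hF.ce k x a, ind_false (fun h => h.1 a : ¬ (¬ cell k x ∧ cell (k + 1) x)),
        ind_false (fun h => h.1 a : ¬ (¬ cell k x ∧ cell k (srv (c k) x l)))]
      by_cases b : cell k (srv (c k) x l)
      · rw [hF.ce k _ b, ind_false (fun h => h.2 b : ¬ (cell k x ∧ ¬ cell k (srv (c k) x l)))]
        linarith
      · rw [ind_true (⟨a, b⟩ : cell k x ∧ ¬ cell k (srv (c k) x l))]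
        have := hF.d0 k (srv (c k) x l)
        linarith
    · rw [ind_false (fun h => a h.1 : ¬ (cell k x ∧ ¬ cell k (srv (c k) x l)))]
      have h3 : δ k x ≤ eta * ind (¬ cell k x ∧ cell (k + 1) x) := by
        by_cases a' : cell (k + 1) x
        · rw [ind_true (⟨a, a'⟩ : ¬ cell k x ∧ cell (k + 1) x), mul_one]
          exact hF.d1 k x
        · rw [hF.co k x a']
          exact mul_nonneg heta (ind_nonneg _)
      have h4 : eta * ind (¬ cell k x ∧ cell k (srv (c k) x l)) ≤ δ k (srv (c k) x l) := by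
        by_cases b : cell k (srv (c k) x l)
        · rw [hF.ce k _ b]
          have := mul_le_mul_of_nonneg_left (ind_le_one
            (¬ cell k x ∧ cell k (srv (c k) x l))) heta
          linarith
        · rw [ind_false (fun h => b h.2 : ¬ (¬ cell k x ∧ cell k (srv (c k) x l))), mul_zero]
          exact hF.d0 k _
      linarith
  linarith

theorem famX_M {T : Type} [Fintype T] [DecidableEq T] [Nonempty T]
    {c : ℕ → T → T → ℝ} {δ : ℕ → T → ℝ} {cell : ℕ → T → Prop} {eta : ℝ} {N : ℕ}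
    (hF : Fam1 c δ cell eta N) (heta : 0 ≤ eta) (l : List T) (k : ℕ) :
    0 ≤ ∑ s ∈ used (c k) l, δ k s ∧
      ∑ s ∈ used (c k) l, δ k s ≤ eta * (Fintype.card T : ℝ) := by
  refine ⟨sum_nonneg fun s _ => hF.d0 k s, ?_⟩
  calc ∑ s ∈ used (c k) l, δ k s ≤ ∑ s ∈ used (c k) l, eta := sum_le_sum fun s _ => hF.d1 k s
    _ = ((used (c k) l).card : ℝ) * eta := by rw [sum_const, nsmul_eq_mul]
    _ ≤ (Fintype.card T : ℝ) * eta := by
        apply mul_le_mul_of_nonneg_right _ heta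
        exact_mod_cast card_le_univ _
    _ = eta * (Fintype.card T : ℝ) := mul_comm _ _

/-- (OneB) -/
theorem oneX (hM : MirProp) (hMo : MonoProp) {T : Type} [Fintype T] [DecidableEq T] [Nonempty T]
    {c : ℕ → T → T → ℝ} {δ : ℕ → T → ℝ} {cell : ℕ → T → Prop} {eta : ℝ} {N : ℕ}
    (hF : Fam1 c δ cell eta N) (heta : 0 ≤ eta) (x : T) (l : List T)
    (hl : l.length + 1 ≤ Fintype.card T) (j1 j : ℕ) (hj : j1 ≤ j) (hN : j ≤ N) :
    optv (c j) (x :: l) - optv (c j) l ≤ optv (c j1) (x :: l) - optv (c j1) l +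
        eta * (1 + (Fintype.card T : ℝ)) +
        eta * ∑ k ∈ Ico j1 j, ind (cell k x ∧ ¬ cell k (srv (c k) x l)) ∧
      eta * ∑ k ∈ Ico j1 j, ind (¬ cell k x ∧ cell k (srv (c k) x l)) ≤
        optv (c j1) (x :: l) - optv (c j1) l + eta * (1 + (Fintype.card T : ℝ)) := by
  have hinc := fun k => famX_inc hM hF heta x l hl k
  have hMk := fun k => famX_M hF heta l k
  have hU : ∀ k, j1 ≤ k → k ≤ N → 0 ≤ optv (c k) (x :: l) - optv (c k) l := by
    intro k _ hk
    have := (hMo T (c k) l).1 (hF.nn k hk) x hl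
    linarith
  constructor
  · have h1 := seqA (fun k => optv (c k) (x :: l) - optv (c k) l)
      (fun k => ∑ s ∈ used (c k) l, δ k s) (fun k => cell k x)
      (fun k => cell k (srv (c k) x l)) eta (Fintype.card T) j1 heta (fun k => hF.up k x) j hj
      (fun k _ _ => hinc k)
    have h2 := mul_le_mul_of_nonneg_left (ind_le_one (¬ cell j1 x ∧ cell j x)) heta
    have h3 := (hMk j).2
    have h4 := (hMk j1).1
    linarith
  · exact (seqB (fun k => optv (c k) (x :: l) - optv (c k) l)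
      (fun k => ∑ s ∈ used (c k) l, δ k s) (fun k => cell k x)
      (fun k => cell k (srv (c k) x l)) eta (Fintype.card T) j1 heta N (fun k => hF.up k x) hU
      (fun k => (hMk k).1) (fun k => (hMk k).2) (Nat.cast_nonneg _) j hj hN
      (fun k _ _ => hinc k)).2

end OneM

open OneM

theorem oneP : MonoProp → MirProp → OneB := by
  intro hMo hM T _ _ _ c δ cell eta N x l a b hF hl hab hb
  exact oneX hM hMo hF hF.eta0.le x l hl a b hab hb

end Pool.Agent.AM
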