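import Pool.Agent.Lib.AM.SpecB

set_option autoImplicit false
set_option linter.all false

/-!
# AM, SpecB, Ps: sums over the requests
-/

namespace Pool.Agent.AM

open Finset Pool.Agent.MP_a4c1f4_lc

private theorem PsB_nil {T : Type} [Fintype T] [DecidableEq T] (c : T → T → ℝ) :
    optv c ([] : List T) = 0 := by
  unfold optv
  have h : {v : ℝ | ∃ τ : List T, Adm ([] : List T) τ ∧ acost c ([] : List T) τ = v} = {0} := by
    ext v
    constructor
    · rintro ⟨τ, hτ, hv⟩
      have h1 : τ = [] := List.length_eq_zero_iff.1 hτ.1
      subst h1
      simp [acost] at hv
      exact hv.symm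
    · intro hv
      have hv' : v = 0 := hv
      subst hv'
      refine ⟨[], ⟨rfl, List.nodup_nil⟩, ?_⟩
      simp [acost]
  rw [h]
  exact csInf_singleton 0

theorem psP : UsedProp → PsB := by
  intro hU
  refine ⟨?_, ?_, ?_, ?_, ?_, ?_⟩
  · intro S f g l h
    induction l with
    | nil => exact le_refl _
    | cons x l ih =>
      show psum f l + f x l ≤ psum g l + g x l
      exact add_le_add ih (h x l)
  · intro S f l
    induction l with
    | nil => rfl
    | cons x l ih =>
      show psum (fun x _ => f x) l + f x = _
      rw [ih, List.map_cons, List.sum_cons, add_comm]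
  · intro T _ _ _ c f l
    induction l with
    | nil =>
      intro _
      show ∑ s ∈ used c [], f s = 0
      have : used c ([] : List T) = ∅ := rfl
      rw [this, Finset.sum_empty]
    | cons x l ih =>
      intro hl
      have hl' : l.length + 1 ≤ Fintype.card T := by simpa using hl
      have h1 : used c (x :: l) = insert (srv c x l) (used c l) := rfl
      have h2 := ((hU T c l).2 x hl').1
      rw [h1, Finset.sum_insert h2, ih (by omega)]
      show f (srv c x l) + _ = psum (fun x l' => f (srv c x l')) l + f (srv c x l)
      rw [add_comm]
  · intro T _ _ c l
    induction l with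
    | nil => exact (PsB_nil c).symm
    | cons x l ih =>
      show psum (fun x l' => prT c x l') l + prT c x l = _
      rw [ih]
      unfold prT
      ring
  · intro S T h f l
    induction l with
    | nil => rfl
    | cons x l ih =>
      show psum (fun x l' => f (h x) (l'.map h)) l + f (h x) (l.map h) =
        psum f (l.map h) + f (h x) (l.map h)
      rw [ih]
  · intro S f g a l
    induction l with
    | nil =>
      show (0 : ℝ) = 0 + a * 0
      ring
    | cons x l ih =>
      show psum (fun x l' => f x l' + a * g x l') l + (f x l + a * g x l) =
        (psum f l + f x l) + a * (psum g l + g x l)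
      rw [ih]
      ring

end Pool.Agent.AM
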