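import Pool.Agent.Lib.AM.SpecB

set_option autoImplicit false
set_option linter.all false

/-!
# AM, part B: one request arrives in the cell
-/

namespace Pool.Agent.AM

open Finset Pool.Agent.MP_a4c1f4_lc

theorem arP : OneB → TwProp → TexAProp → TexCProp → ArB := by
  intro hOne hTw hTexA hTexC T _ _ _ c δ cell mu Lam v N a x l hLam hN hmu hv hF hl haN haL
  obtain ⟨hθ, _, _, _, _, _, htw0, _, _, _⟩ := hTw Lam N hLam hN
  obtain ⟨_, hA⟩ := hTexA Lam N v hLam hN hv
  obtain ⟨_, _, hex0, _, hexz, _⟩ := hTexC Lam N v hLam hN hv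
  have hO := (hOne T c δ cell (mu * Lam / N) N x l a N hF hl haN.le le_rfl).2
  set E : ℕ → Prop := fun k => ¬ cell k x ∧ cell k (srv (c k) x l) with hE
  have hexp : 0 < Real.exp (- v) := Real.exp_pos _
  -- the terms below `a` vanish
  have hz : ∀ j, j < a → tw Lam N j * (exj Lam N v j * ind (E j)) = 0 := by
    intro j hj
    have h1 : Lam * (j : ℝ) / (N : ℝ) ≤ Lam * (a : ℝ) / (N : ℝ) := by
      have h2 : (j : ℝ) ≤ (a : ℝ) := by exact_mod_cast hj.le
      rw [mul_div_right_comm, mul_div_right_comm]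
      exact mul_le_mul_of_nonneg_left h2 hθ.le
    rw [hexz j (by linarith), zero_mul, mul_zero]
  have hsplit : ∑ j ∈ range N, tw Lam N j * (exj Lam N v j * ind (E j)) =
      ∑ j ∈ Ico a N, tw Lam N j * (exj Lam N v j * ind (E j)) := by
    rw [Finset.range_eq_Ico, ← Finset.sum_Ico_consecutive _ (Nat.zero_le a) haN.le]
    rw [Finset.sum_eq_zero (fun j hj => hz j (Finset.mem_Ico.1 hj).2), zero_add]
  have hterm : ∀ j ∈ Ico a N, tw Lam N j * (exj Lam N v j * ind (E j)) ≤
      0.06 * (Lam / (N : ℝ)) * Real.exp (-v) * ind (E j) := by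
    intro j _
    rw [← mul_assoc]
    exact mul_le_mul_of_nonneg_right (hA j) (ind_nonneg _)
  have hsum := Finset.sum_le_sum hterm
  rw [← Finset.mul_sum] at hsum
  show ∑ j ∈ range N, tw Lam N j * (exj Lam N v j * ind (E j)) ≤ _
  rw [hsplit]
  refine hsum.trans ?_
  have h3 : 0.06 * (Lam / (N : ℝ)) * Real.exp (-v) * ∑ j ∈ Ico a N, ind (E j) =
      0.06 / mu * Real.exp (-v) * (mu * Lam / N * ∑ j ∈ Ico a N, ind (E j)) := by
    have hmu' : mu ≠ 0 := hmu.ne'
    field_simp
  rw [h3]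
  exact mul_le_mul_of_nonneg_left hO (by positivity)

end Pool.Agent.AM
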