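import Pool.Agent.Lib.AM.SpecB

set_option autoImplicit false
set_option linter.all false

/-!
# AM, part B: a fixed pair is cut, one source (module Cu)
-/

namespace Pool.Agent.AM

open Finset Pool.Agent.MP_a4c1f4_lc

private theorem CuB_up (Cx : ℕ → Prop) (hup : ∀ j, Cx j → Cx (j + 1)) {a j : ℕ} (ha : Cx a) (h : a ≤ j) :
    Cx j := by
  induction j, h using Nat.le_induction with
  | base => exact ha
  | succ n _ ih => exact hup n ih

private theorem CuB_one (hTw : TwProp) (hC : TexCProp) (Cx Co : ℕ → Prop) (K Lam v : ℝ) (N : ℕ)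
    (hL : 24 ≤ Lam) (hN : Lam ^ 2 ≤ (N : ℝ)) (hv : 0 ≤ v) (hK : 0 ≤ K)
    (hup : ∀ j, Cx j → Cx (j + 1)) (hs : ∑ j ∈ range N, ind (Cx j ∧ ¬ Co j) ≤ K) :
    ∑ j ∈ range N, tw Lam N j * ind (Cx j ∧ ¬ Co j) ≤
      K * (Lam / N) * (∑ j ∈ range N, tw Lam N j * ind (Cx j) + 2 * Real.exp (- Lam)) := by
  obtain ⟨hθ, -, -, -, -, -, htw0, -, hmono, -⟩ := hTw Lam N hL hN
  have hE : 0 ≤ 2 * Real.exp (- Lam) := by positivity
  have hS : 0 ≤ ∑ j ∈ range N, tw Lam N j * ind (Cx j) :=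
    Finset.sum_nonneg fun j _ => mul_nonneg (htw0 j) (ind_nonneg _)
  by_cases hex : ∃ j, j < N ∧ Cx j
  · obtain ⟨j0, hj0, hCj0⟩ := hex
    obtain ⟨a, ha, hmin⟩ : ∃ a, Cx a ∧ ∀ j, Cx j → a ≤ j := by
      classical
      exact ⟨Nat.find ⟨j0, hCj0⟩, Nat.find_spec ⟨j0, hCj0⟩, fun j hj => Nat.find_min' ⟨j0, hCj0⟩ hj⟩
    have haN : a ≤ N := (hmin j0 hCj0).trans hj0.le
    have h1 : ∑ j ∈ range N, tw Lam N j * ind (Cx j ∧ ¬ Co j) ≤
        ∑ j ∈ range N, tw Lam N a * ind (Cx j ∧ ¬ Co j) := by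
      refine Finset.sum_le_sum fun j _ => ?_
      by_cases hj : Cx j ∧ ¬ Co j
      · rw [ind_true hj]
        exact mul_le_mul_of_nonneg_right (hmono a j (hmin j hj.1)) zero_le_one
      · rw [ind_false hj, mul_zero, mul_zero]
    have h2 : ∑ i ∈ Ico a N, tw Lam N i ≤ ∑ j ∈ range N, tw Lam N j * ind (Cx j) := by
      have h3 : ∑ i ∈ Ico a N, tw Lam N i = ∑ i ∈ Ico a N, tw Lam N i * ind (Cx i) := by
        refine Finset.sum_congr rfl fun i hi => ?_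
        rw [ind_true (CuB_up Cx hup ha (Finset.mem_Ico.1 hi).1), mul_one]
      rw [h3]
      refine Finset.sum_le_sum_of_subset_of_nonneg ?_ fun j _ _ => mul_nonneg (htw0 j) (ind_nonneg _)
      intro j hj
      exact Finset.mem_range.2 (Finset.mem_Ico.1 hj).2
    have h4 := (hC Lam N v hL hN hv).2.1 a haN
    have h5 : tw Lam N a ≤ Lam / (N : ℝ) * (∑ j ∈ range N, tw Lam N j * ind (Cx j) + 2 * Real.exp (-Lam)) :=
      h4.trans (mul_le_mul_of_nonneg_left (by linarith [h2]) hθ.le)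
    rw [← Finset.mul_sum] at h1
    calc ∑ j ∈ range N, tw Lam N j * ind (Cx j ∧ ¬ Co j)
        ≤ tw Lam N a * ∑ j ∈ range N, ind (Cx j ∧ ¬ Co j) := h1
      _ ≤ tw Lam N a * K := mul_le_mul_of_nonneg_left hs (htw0 a)
      _ ≤ (Lam / (N : ℝ) * (∑ j ∈ range N, tw Lam N j * ind (Cx j) + 2 * Real.exp (-Lam))) * K :=
          mul_le_mul_of_nonneg_right h5 hK
      _ = K * (Lam / N) * (∑ j ∈ range N, tw Lam N j * ind (Cx j) + 2 * Real.exp (- Lam)) := by ring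
  · have h1 : ∑ j ∈ range N, tw Lam N j * ind (Cx j ∧ ¬ Co j) = 0 := by
      refine Finset.sum_eq_zero fun j hj => ?_
      rw [ind_false (fun h => hex ⟨j, Finset.mem_range.1 hj, h.1⟩), mul_zero]
    rw [h1]
    exact mul_nonneg (mul_nonneg hK hθ.le) (add_nonneg hS hE)

theorem cuP : TwProp → TexAProp → TexCProp → CuB := by
  intro hTw hA hC Cx Co K Lam v N hL hN hv hK hup hs
  have h1 := CuB_one hTw hC Cx Co K Lam v N hL hN hv hK hup hs
  obtain ⟨hθ, -, -, -, -, -, -, -, -, -⟩ := hTw Lam N hL hN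
  have h2 : ∑ j ∈ range N, (tw Lam N j * exj Lam N v j) * ind (Cx j ∧ ¬ Co j) ≤
      K * 0.06 * (Lam / N) * Real.exp (- v) := by
    have he : 0 ≤ 0.06 * (Lam / (N : ℝ)) * Real.exp (-v) :=
      mul_nonneg (mul_nonneg (by norm_num) hθ.le) (Real.exp_pos _).le
    calc ∑ j ∈ range N, (tw Lam N j * exj Lam N v j) * ind (Cx j ∧ ¬ Co j)
        ≤ ∑ j ∈ range N, (0.06 * (Lam / (N : ℝ)) * Real.exp (-v)) * ind (Cx j ∧ ¬ Co j) :=
          Finset.sum_le_sum fun j _ =>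
            mul_le_mul_of_nonneg_right ((hA Lam N v hL hN hv).2 j) (ind_nonneg _)
      _ = (0.06 * (Lam / (N : ℝ)) * Real.exp (-v)) * ∑ j ∈ range N, ind (Cx j ∧ ¬ Co j) := by
          rw [Finset.mul_sum]
      _ ≤ (0.06 * (Lam / (N : ℝ)) * Real.exp (-v)) * K := mul_le_mul_of_nonneg_left hs he
      _ = K * 0.06 * (Lam / N) * Real.exp (- v) := by ring
  have h3 : ∑ j ∈ range N, tw Lam N j * ((1 + exj Lam N v j) * ind (Cx j ∧ ¬ Co j)) =
      ∑ j ∈ range N, tw Lam N j * ind (Cx j ∧ ¬ Co j) +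
      ∑ j ∈ range N, (tw Lam N j * exj Lam N v j) * ind (Cx j ∧ ¬ Co j) := by
    rw [← Finset.sum_add_distrib]
    exact Finset.sum_congr rfl fun j _ => by ring
  rw [h3]
  exact add_le_add h1 h2

end Pool.Agent.AM
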